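import Mathlib

set_option autoImplicit false

namespace Pool.Agent.H.MP_2a41cd_an

open Set Filter Topology

variable {X : Type} [AddCommGroup X] [Module ℝ X]

def Ro (N : Seminorm ℝ X) : Prop := ∀ x y, N x = 1 → N y = 1 → N (x + y) = 2 → N (x - y) = 0

def Sm (N : Seminorm ℝ X) : Prop := ∀ x h, N x = 1 → ∀ ε > 0, ∀ᶠ τ : ℝ in 𝓝[>] 0,
  N (x + τ • h) + N (x - τ • h) - 2 ≤ ε * τ

theorem sl (N : Seminorm ℝ X) {x : X} (hx : N x = 1) (k : X) : ∃ L : ℝ,
    (∀ s > 0, ∀ τ > 0, s + τ * L ≤ N (s • x + τ • k)) ∧ ∀ c > L, ∀ᶠ τ : ℝ in 𝓝[>] 0, N (x + τ • k) ≤ 1 + τ * c := by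
  have b : BddBelow ((fun τ => (N (x + τ • k) - 1) / τ) '' Ioi 0) := ⟨-N k, by
    rintro _ ⟨τ, h, rfl⟩
    have := map_sub_le_add N (x + τ • k) (τ • k)
    rw [add_sub_cancel_right, map_smul_eq_mul, Real.norm_of_nonneg h.le] at this
    rw [le_div_iff₀ h]; linarith⟩
  refine ⟨sInf ((fun τ => (N (x + τ • k) - 1) / τ) '' Ioi 0), fun s s0 τ t0 => ?_, fun c hc => ?_⟩
  · have := csInf_le b ⟨τ / s, div_pos t0 s0, rfl⟩
    rw [le_div_iff₀ (div_pos t0 s0)] at this
    rw [show s • x + τ • k = s • (x + (τ / s) • k) by rw [smul_add, smul_smul, mul_div_cancel₀ _ s0.ne'],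
      map_smul_eq_mul, Real.norm_of_nonneg s0.le]
    have := mul_le_mul_of_nonneg_left this s0.le
    rw [← mul_assoc, mul_comm s, mul_assoc, mul_div_cancel₀ _ s0.ne'] at this
    linarith
  · obtain ⟨_, ⟨t, t0, rfl⟩, h⟩ := exists_lt_of_csInf_lt (nonempty_Ioi.image _) hc
    filter_upwards [Ioo_mem_nhdsGT t0] with τ ⟨a, d⟩
    rw [div_lt_iff₀ t0] at h
    obtain ⟨s, rfl⟩ : ∃ s, τ = s * t := ⟨τ / t, (div_mul_cancel₀ _ t0.ne').symm⟩
    have s0 : 0 < s := (mul_pos_iff_of_pos_right t0).mp a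
    have s1 : s < 1 := by nlinarith [mem_Ioi.mp t0]
    have := map_add_le_add N ((1 - s) • x) (s • (x + t • k))
    rw [map_smul_eq_mul, map_smul_eq_mul, Real.norm_of_nonneg s0.le, Real.norm_of_nonneg (by linarith), hx,
      show (1 - s) • x + s • (x + t • k) = x + (s * t) • k by module] at this
    nlinarith

theorem tr (N : Seminorm ℝ X) {x h : X} (hx : N x = 1) {Ψ : X → ℝ}
    (le : ∀ s t : ℝ, N (s • x + t • h) ≤ max 1 (Ψ (s • x + t • h)))
    (sm : ∀ k, ∀ ε > 0, ∀ᶠ τ : ℝ in 𝓝[>] 0, Ψ (x + τ • k) + Ψ (x - τ • k) - 2 ≤ ε * τ) :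
    ∀ ε > 0, ∀ᶠ τ : ℝ in 𝓝[>] 0, N (x + τ • h) + N (x - τ • h) - 2 ≤ ε * τ := fun ε ε0 => by
  obtain ⟨α, a1, a2⟩ := sl N hx h
  obtain ⟨β, b1, b2⟩ := sl N hx (-h)
  rcases lt_or_ge (α + β) ε with c | c
  · filter_upwards [a2 (α + (ε - α - β) / 2) (by linarith), b2 (β + (ε - α - β) / 2) (by linarith)] with τ d e
    rw [smul_neg, ← sub_eq_add_neg] at e
    linarith
  · exfalso
    obtain ⟨m, hm⟩ : ∃ m, m = (α - β) / 2 := ⟨_, rfl⟩
    have : ∀ᶠ τ : ℝ in 𝓝 0, |τ * m| < 1 :=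
      (by fun_prop : Continuous fun τ : ℝ => |τ * m|).continuousAt.eventually_lt continuousAt_const (by simp)
    obtain ⟨τ, ⟨d, e⟩, t0⟩ := (((sm (h - m • x) (ε / 2) (by linarith)).and (this.filter_mono
      nhdsWithin_le_nhds)).and self_mem_nhdsWithin).exists
    have t0 : 0 < τ := t0
    rw [abs_lt] at e
    have u := (a1 _ (show 0 < 1 - τ * m by linarith) τ t0).trans (le _ _)
    have v := b1 _ (show 0 < 1 + τ * m by linarith) τ t0
    rw [smul_neg, ← neg_smul] at v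
    replace v := v.trans (le _ _)
    rw [show x + τ • (h - m • x) = (1 - τ * m) • x + τ • h by module,
      show x - τ • (h - m • x) = (1 + τ * m) • x + -τ • h by module] at d
    have w := mul_le_mul_of_nonneg_left c t0.le
    have := mul_pos t0 ε0
    rw [le_max_iff, hm] at u v
    rw [hm] at d
    rcases u with u | u <;> rcases v with v | v <;> linarith

theorem sm2 {N : Seminorm ℝ X} (h : Sm N) (x k : X) : ∀ ε > 0, ∀ᶠ τ : ℝ in 𝓝[>] 0,
    N (x + τ • k) ^ 2 + N (x - τ • k) ^ 2 - 2 * N x ^ 2 ≤ ε * τ := fun ε ε0 => by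
  have a : ∀ᶠ τ : ℝ in 𝓝[>] 0, 2 * N x * (N (x + τ • k) + N (x - τ • k) - 2 * N x) ≤ ε / 2 * τ := by
    rcases (apply_nonneg N x).eq_or_lt with c | c
    · filter_upwards [self_mem_nhdsWithin] with τ t0
      rw [← c]; simp only [mul_zero, zero_mul]; exact mul_nonneg (by linarith) (le_of_lt t0)
    · filter_upwards [h ((N x)⁻¹ • x) ((N x)⁻¹ • k) (by
        rw [map_smul_eq_mul, Real.norm_of_nonneg (by positivity), inv_mul_cancel₀ c.ne'])
        (ε / 4 / N x ^ 2) (by positivity)] with τ d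
      rw [smul_comm, ← smul_add, ← smul_sub, map_smul_eq_mul, map_smul_eq_mul, Real.norm_of_nonneg (by positivity)] at d
      have := mul_le_mul_of_nonneg_left d (show 0 ≤ 2 * N x ^ 2 by positivity)
      field_simp at this ⊢
      linarith
  filter_upwards [a, Ioo_mem_nhdsGT (show 0 < ε / 4 / (N k ^ 2 + 1) by positivity)] with τ a ⟨t0, t1⟩
  have b := N.norm_sub_map_le_sub (x + τ • k) x
  have c := N.norm_sub_map_le_sub (x - τ • k) x
  rw [add_sub_cancel_left] at b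
  rw [sub_sub_cancel_left, map_neg_eq_map] at c
  rw [map_smul_eq_mul, Real.norm_eq_abs, Real.norm_of_nonneg t0.le] at b c
  rw [lt_div_iff₀ (by positivity)] at t1
  nlinarith [sq_le_sq' (abs_le.mp b).1 (abs_le.mp b).2, sq_le_sq' (abs_le.mp c).1 (abs_le.mp c).2]

theorem gau {B : Set X} (h1 : Convex ℝ B) (h2 : ∀ z ∈ B, -z ∈ B) (P : Seminorm ℝ X) (h3 : ∀ z, P z ≤ 1 → z ∈ B) :
    ∃ N : Seminorm ℝ X, (∀ z ∈ B, N z ≤ 1) ∧ ∀ z, N z < 1 → z ∈ B := by
  have a : Absorbent ℝ B := (P.absorbent_closedBall_zero one_pos).mono fun z h => h3 z (by simpa using h)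
  exact ⟨gaugeSeminorm ((balanced_iff_neg_mem h1).mpr h2) h1 a, fun z => gauge_le_one_of_mem,
    fun z h => setOfPred_gauge_lt_one_subset_self h1 (h3 0 (by simp)) a h⟩

theorem cmp {P Q : Seminorm ℝ X} (h : ∀ z, Q z < 1 → P z ≤ 1) (z : X) : P z ≤ Q z :=
  le_of_forall_gt_imp_ge_of_dense fun μ c => by
    have m := (apply_nonneg Q z).trans_lt c
    have := h (μ⁻¹ • z) (by rwa [map_smul_eq_mul, Real.norm_of_nonneg (by positivity), inv_mul_lt_one₀ m])
    rwa [map_smul_eq_mul, Real.norm_of_nonneg (by positivity), inv_mul_le_one₀ m] at this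

noncomputable def T (a s : ℝ) : ℝ := max (|s| - a) 0 ^ 2

theorem T_cv (a : ℝ) : ConvexOn ℝ univ (T a) :=
  ((convexOn_univ_norm.sub (concaveOn_const a convex_univ)).sup (convexOn_const 0 convex_univ)).pow
    (fun _ _ => le_max_right _ _) 2

theorem T_sd {a : ℝ} (h : 0 ≤ a) (s b : ℝ) : T a (s + b) + T a (s - b) - 2 * T a s ≤ 4 * b ^ 2 := by
  have : ∀ s, T a s = max (s - a) 0 ^ 2 + max (-s - a) 0 ^ 2 := fun s => by
    unfold T
    rcases abs_cases s with ⟨c, d⟩ | ⟨c, d⟩ <;> rw [c]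
    · rw [max_eq_right (by linarith : -s - a ≤ 0)]; ring
    · rw [max_eq_right (by linarith : s - a ≤ 0)]; ring
  have e : ∀ s b : ℝ, max (s + b) 0 ^ 2 + max (s - b) 0 ^ 2 - 2 * max s 0 ^ 2 ≤ 2 * b ^ 2 := fun s b => by
    simp only [max_def]; split_ifs <;> nlinarith
  have e1 := e (s - a) b
  have e2 := e (-s - a) b
  simp only [this]
  ring_nf at *
  linarith

theorem step {J : Type} {M : Seminorm ℝ X} (hr : Ro M) (hs : Sm M) (π : X →ₗ[ℝ] ℝ) (G : J → X →ₗ[ℝ] ℝ) (a : J → ℝ)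
    (a0 : ∀ j, 0 ≤ a j) (hG : ∀ j z, |G j z| ≤ a j * (M z + |π z|))
    (act : ∀ x h : X, ∃ S : Finset J, ∀ j ∉ S, ∀ s t : ℝ, M (s • x + t • h) ^ 2 + π (s • x + t • h) ^ 2 ≤ 1 →
      |G j (s • x + t • h)| ≤ a j) :
    ∃ N : Seminorm ℝ X, Ro N ∧ Sm N ∧ (∀ z, M z ≤ N z) ∧ (∀ z, |π z| ≤ N z) ∧ (∀ z, N z ≤ M z + |π z|) ∧
      ∀ j z, a j + 1 ≤ G j z → 1 ≤ N z := by
  classical
  obtain ⟨Φ, hΦ⟩ : ∃ Φ : Finset J → X → ℝ, ∀ S z, Φ S z = M z ^ 2 + π z ^ 2 + ∑ j ∈ S, T (a j) (G j z) :=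
    ⟨_, fun _ _ => rfl⟩
  have T0 : ∀ a s, 0 ≤ T a s := fun _ _ => sq_nonneg _
  have T1 : ∀ j z, |G j z| ≤ a j → T (a j) (G j z) = 0 := fun j z h => by simp [T, h]
  have S0 : ∀ S z, 0 ≤ ∑ j ∈ S, T (a j) (G j z) := fun S z => Finset.sum_nonneg fun _ _ => T0 _ _
  have cv : ∀ (S : Finset J) (x y : X) (s t : ℝ), 0 ≤ s → 0 ≤ t → s + t = 1 → ∑ j ∈ S, T (a j) (G j (s • x + t • y)) ≤
      s * ∑ j ∈ S, T (a j) (G j x) + t * ∑ j ∈ S, T (a j) (G j y) := fun S x y s t s0 t0 e => by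
    rw [Finset.mul_sum, Finset.mul_sum, ← Finset.sum_add_distrib]
    exact Finset.sum_le_sum fun j _ => by simpa using (T_cv (a j)).2 trivial trivial s0 t0 e
  obtain ⟨P, hP⟩ : ∃ P : Seminorm ℝ X, ∀ z, P z = |π z| := ⟨(normSeminorm ℝ ℝ).comp π, fun _ => rfl⟩
  obtain ⟨N, n1, n2⟩ := gau (B := {z | ∀ S, Φ S z ≤ 1}) (fun x hx y hy s t s0 t0 e S => by
      have h1 := hx S
      have h2 := hy S
      have h3 := cv S x y s t s0 t0 e
      have h4 := (M.convexOn.pow (fun _ _ => apply_nonneg M _) 2).2 (mem_univ x) (mem_univ y) s0 t0 e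
      have h5 := (Even.convexOn_pow (𝕜 := ℝ) even_two).2 (mem_univ (π x)) (mem_univ (π y)) s0 t0 e
      simp only [hΦ, map_add π, map_smul π, Pi.pow_apply, smul_eq_mul] at *
      nlinarith)
    (fun z h S => by simpa [hΦ, T] using h S) (M + P) fun z h S => by
      rw [add_apply, hP] at h
      rw [hΦ, Finset.sum_eq_zero fun j _ => T1 j z ((hG j z).trans (mul_le_of_le_one_right (a0 j) h))]
      nlinarith [apply_nonneg M z, abs_nonneg (π z), sq_abs (π z)]
  have n3 : ∀ x h : X, ∃ S, (∀ s t : ℝ, Φ S (s • x + t • h) ≤ 1 → N (s • x + t • h) ≤ 1) ∧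
      ∀ s t : ℝ, N (s • x + t • h) = 1 → Φ S (s • x + t • h) = 1 := fun x h => by
    obtain ⟨S, hS⟩ := act x h
    have b : ∀ s t : ℝ, Φ S (s • x + t • h) ≤ 1 → N (s • x + t • h) ≤ 1 := fun s t c => n1 _ fun S' => by
      refine le_trans ?_ c
      rw [hΦ] at c
      rw [hΦ, hΦ, ← Finset.sum_subset (Finset.inter_subset_left (s₁ := S') (s₂ := S)) fun j c1 c2 => T1 _ _
        (hS j (by simpa [c1] using c2) s t (by linarith [S0 S (s • x + t • h)]))]
      gcongr
      exacts [fun _ _ _ => T0 _ _, Finset.inter_subset_right]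
    refine ⟨S, b, fun s t c => ?_⟩
    have ct : ContinuousAt (fun l : ℝ => Φ S (l • (s • x + t • h))) 1 := by
      simp only [hΦ, map_smul_eq_mul M, map_smul, T]; fun_prop
    refine le_antisymm (not_lt.mp fun d => ?_) (not_lt.mp fun d => ?_)
    · obtain ⟨l, d, l0, l1⟩ := (((continuousAt_const.eventually_lt ct (by simpa using d)).filter_mono
        nhdsWithin_le_nhds).and (Ioo_mem_nhdsLT one_pos)).exists
      exact d.not_ge (n2 _ (by rwa [map_smul_eq_mul, c, mul_one, Real.norm_of_nonneg l0.le]) S)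
    · obtain ⟨l, d, l0⟩ := (((ct.eventually_lt continuousAt_const (by simpa using d)).filter_mono
        nhdsWithin_le_nhds).and (self_mem_nhdsWithin (s := Ioi 1))).exists
      have := b (l * s) (l * t) (by simpa [smul_smul] using d.le)
      rw [mul_smul, mul_smul, ← smul_add, map_smul_eq_mul, c, mul_one] at this
      exact l0.not_ge ((le_abs_self l).trans this)
  have n4 : ∀ z, N z ≤ M z + |π z| := fun z => hP z ▸ cmp (Q := M + P) (fun z h => n1 z fun S => by
    rw [add_apply, hP] at h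
    rw [hΦ, Finset.sum_eq_zero fun j _ => T1 j z ((hG j z).trans (mul_le_of_le_one_right (a0 j) h.le))]
    nlinarith [apply_nonneg M z, abs_nonneg (π z), sq_abs (π z)]) z
  refine ⟨N, fun x y hx hy h => ?_, fun x h hx => ?_, cmp fun z h => ?_, fun z => hP z ▸ cmp (fun z h => ?_) z, n4,
    fun j z h => not_lt.mp fun c => ?_⟩
  · obtain ⟨S, -, b⟩ := n3 x y
    have h1 := b 1 0 (by simpa using hx)
    have h2 := b 0 1 (by simpa using hy)
    have h3 := b (1 / 2) (1 / 2) (by rw [← smul_add, map_smul_eq_mul, h]; norm_num)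
    have h4 := cv S x y (1 / 2) (1 / 2) (by norm_num) (by norm_num) (by norm_num)
    have h5 := map_add_le_add M x y
    simp only [hΦ, one_smul, zero_smul, add_zero, zero_add] at h1 h2 h3
    rw [show M ((1 / 2 : ℝ) • x + (1 / 2 : ℝ) • y) = M (x + y) / 2 by
      rw [← smul_add, map_smul_eq_mul]; norm_num; ring, map_add π, map_smul π, map_smul π, smul_eq_mul,
      smul_eq_mul] at h3
    have h6 := mul_self_le_mul_self (apply_nonneg M _) h5
    have h7 : (M x - M y) ^ 2 + (π x - π y) ^ 2 ≤ 0 := by nlinarith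
    have e1 : π x = π y := by nlinarith [sq_nonneg (M x - M y), sq_nonneg (π x - π y)]
    have e2 : M x = M y := by nlinarith [sq_nonneg (M x - M y), sq_nonneg (π x - π y)]
    have e3 : M (x + y) = 2 * M x := by
      refine (pow_left_inj₀ (apply_nonneg _ _) (by positivity) two_ne_zero).mp ?_
      rw [← e1] at h2 h3
      rw [← e2] at h2 h6
      nlinarith
    refine le_antisymm ((n4 _).trans ?_) (apply_nonneg _ _)
    rw [map_sub π, e1, sub_self, abs_zero, add_zero]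
    rcases (apply_nonneg M x).eq_or_lt with c | c
    · linarith [map_sub_le_add M x y]
    · have := hr ((M x)⁻¹ • x) ((M x)⁻¹ • y) ?_ ?_ ?_
      · rw [← smul_sub, map_smul_eq_mul] at this
        exact (by simpa [c.ne'] using this : M (x - y) = 0).le
      all_goals simp only [← smul_add, map_smul_eq_mul, Real.norm_of_nonneg (inv_nonneg.mpr c.le), ← e2, e3]
      all_goals field_simp
  · obtain ⟨S, b, c⟩ := n3 x h
    have c := c 1 0 (by simpa using hx)
    refine tr N hx (Ψ := Φ S) (fun s t => ?_) fun k ε ε0 => ?_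
    · rcases le_total (Φ S (s • x + t • h)) 1 with d | d
      · exact (b s t d).trans (le_max_left _ _)
      · refine le_trans ?_ (le_max_right _ _)
        obtain ⟨l, hl⟩ : ∃ l, l = Φ S (s • x + t • h) := ⟨_, rfl⟩
        rw [← hl] at d ⊢
        have l1 := inv_le_one_of_one_le₀ d
        have l0 : 0 < l⁻¹ := by positivity
        have := b (l⁻¹ * s) (l⁻¹ * t) (by
          have := cv S (s • x + t • h) 0 l⁻¹ (1 - l⁻¹) l0.le (by linarith) (by ring)
          rw [Finset.sum_eq_zero (s := S) fun j _ => T1 j 0 (by simp [a0]), smul_zero, add_zero] at this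
          rw [mul_smul, mul_smul, ← smul_add, hΦ, map_smul_eq_mul M, map_smul π, Real.norm_of_nonneg l0.le,
            smul_eq_mul]
          rw [hΦ] at hl
          have e := inv_mul_cancel₀ (show l ≠ 0 by positivity)
          nlinarith [mul_le_mul_of_nonneg_right (mul_le_of_le_one_right l0.le l1)
            (add_nonneg (sq_nonneg (M (s • x + t • h))) (sq_nonneg (π (s • x + t • h)))), congrArg (l⁻¹ * ·) hl])
        rwa [mul_smul, mul_smul, ← smul_add, map_smul_eq_mul, Real.norm_of_nonneg l0.le,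
          inv_mul_le_one₀ (by positivity)] at this
    · filter_upwards [sm2 hs x k (ε / 2) (by linarith), Ioo_mem_nhdsGT
        (show 0 < ε / 8 / (π k ^ 2 + ∑ j ∈ S, G j k ^ 2 + 1) by positivity)] with τ d ⟨t0, t1⟩
      rw [lt_div_iff₀ (by positivity)] at t1
      have := Finset.sum_le_sum fun j (_ : j ∈ S) => T_sd (a0 j) (G j x) (τ * G j k)
      simp only [hΦ, one_smul, zero_smul, add_zero, map_add π, map_sub π, map_add (G _), map_sub (G _), map_smul,
        smul_eq_mul, Finset.sum_sub_distrib, Finset.sum_add_distrib, mul_pow, ← Finset.mul_sum] at *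
      nlinarith
  · have := n2 z h ∅
    rw [hΦ] at this
    nlinarith [S0 ∅ z, sq_nonneg (π z)]
  · have := n2 z h ∅
    rw [hΦ] at this
    rw [hP]
    nlinarith [S0 ∅ z, sq_nonneg (M z), sq_abs (π z)]
  · obtain ⟨l, l0, l1⟩ : ∃ l > 1, l * N z < 1 := (((((by fun_prop : Continuous fun l : ℝ => l * N z).continuousAt
      (x := 1)).eventually_lt continuousAt_const (by simpa using c)).filter_mono nhdsWithin_le_nhds).and
      (self_mem_nhdsWithin (s := Ioi 1))).exists.imp fun _ => And.symm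
    have := n2 (l • z) (by rwa [map_smul_eq_mul, Real.norm_of_nonneg (by linarith)]) {j}
    rw [hΦ, Finset.sum_singleton, T, map_smul (G j), smul_eq_mul] at this
    have u : 1 < max (|l * G j z| - a j) 0 := lt_max_of_lt_left (by nlinarith [le_abs_self (l * G j z), a0 j])
    nlinarith [sq_nonneg (M (l • z)), sq_nonneg (π (l • z))]

end Pool.Agent.H.MP_2a41cd_an
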