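import Pool.Agent.H.MP_2a41cd_an.A

set_option autoImplicit false

namespace Pool.Agent.H.MP_2a41cd_an

open Set Filter Topology Finsupp Cardinal

theorem idx : ∃ (I : Type) (_ : LinearOrder I) (_ : WellFoundedLT I) (_ : Infinite I) (e : I → I →₀ ℝ),
    (∀ i l, i ≤ l → e i l = 0) ∧ ∀ y, ∃ i, e i = y := by
  classical
  obtain ⟨I, hI⟩ : ∃ I : Type, Cardinal.mk I = continuum := ⟨_, mk_out _⟩
  have a : aleph0 ≤ Cardinal.mk I := hI ▸ aleph0_le_continuum
  have := infinite_iff.mpr a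
  obtain ⟨_, _, h⟩ := exists_ord_eq_type_lt I
  obtain ⟨g⟩ : Nonempty (((I →₀ ℝ) × I) ≃ I) := Cardinal.eq.mp (by simp [hI, mk_real])
  refine ⟨I, inferInstance, inferInstance, inferInstance,
    fun i => if ∀ l, i ≤ l → (g.symm i).1 l = 0 then (g.symm i).1 else 0, fun i l c => ?_, fun y => ?_⟩
  · beta_reduce
    split_ifs with d
    exacts [d l c, rfl]
  · obtain ⟨m, hm⟩ := y.support.finite_toSet.bddAbove
    obtain ⟨k, hk⟩ : ∃ k, m < g (y, k) := by
      by_contra! c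
      exact (mk_Iic_lt m h a).not_ge (mk_le_of_injective (f := fun k => ⟨g (y, k), c k⟩) fun s t e => by simpa using e)
    refine ⟨g (y, k), ?_⟩
    simp only [g.symm_apply_apply]
    exact if_pos fun l c => notMem_support_iff.mp fun d => (hk.trans_le c).not_ge (hm d)

theorem wrec {I α : Type} [LinearOrder I] [WellFoundedLT I] [Nonempty α] (P : I → α → Prop) (R : I → α → I → α → Prop)
    (h : ∀ i (f : I → α), (∀ j < i, P j (f j) ∧ ∀ k < j, R k (f k) j (f j)) → ∃ a, P i a ∧ ∀ k < i, R k (f k) i a) :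
    ∃ f : I → α, ∀ j, P j (f j) ∧ ∀ k < j, R k (f k) j (f j) := by
  obtain ⟨F, hF⟩ : ∃ F : I → α, ∀ i, F i = Classical.epsilon fun a => P i a ∧ ∀ k < i, R k (F k) i a :=
    ⟨wellFounded_lt.fix fun i g => Classical.epsilon fun a => P i a ∧ ∀ k (h : k < i), R k (g k h) i a,
      fun i => WellFounded.fix_eq _ _ _⟩
  refine ⟨F, fun i => ?_⟩
  induction i using WellFoundedLT.induction with
  | ind i ih => rw [hF]; exact Classical.epsilon_spec (h i F ih)

variable {I : Type} [LinearOrder I]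

def P (i : I) (N : Seminorm ℝ (I →₀ ℝ)) : Prop :=
  Ro N ∧ Sm N ∧ (∀ z : I →₀ ℝ, (∀ l ≤ i, z l = 0) → N z = 0) ∧ ∀ l ≤ i, ∀ z : I →₀ ℝ, |z l| ≤ N z

def R (k : I) (Q : Seminorm ℝ (I →₀ ℝ)) (i : I) (N : Seminorm ℝ (I →₀ ℝ)) : Prop :=
  ∀ z : I →₀ ℝ, (∀ l, k < l → l ≤ i → z l = 0) → N z = Q z

theorem glue {L : Set I} (hL : IsLowerSet L) (N : I → Seminorm ℝ (I →₀ ℝ))
    (h : ∀ j ∈ L, P j (N j) ∧ ∀ k < j, R k (N k) j (N j)) :
    ∃ M : Seminorm ℝ (I →₀ ℝ), Ro M ∧ Sm M ∧ (∀ z : I →₀ ℝ, (∀ l ∈ L, z l = 0) → M z = 0) ∧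
      (∀ l ∈ L, ∀ z : I →₀ ℝ, |z l| ≤ M z) ∧ ∀ j ∈ L, ∀ z : I →₀ ℝ, (∀ l ∈ L, j < l → z l = 0) → M z = N j z := by
  classical
  rcases L.eq_empty_or_nonempty with rfl | ⟨i, hi⟩
  · exact ⟨0, fun x y c => by simp at c, fun x y c => by simp at c, fun _ _ => rfl, by simp, by simp⟩
  have : Nonempty I := ⟨i⟩
  obtain ⟨m, hm⟩ : ∃ m : (I →₀ ℝ) → ℝ, ∀ j ∈ L, ∀ z : I →₀ ℝ, (∀ l ∈ L, j < l → z l = 0) → m z = N j z := by
    refine ⟨fun z => N (Classical.epsilon fun j => j ∈ L ∧ ∀ l ∈ L, j < l → z l = 0) z, fun j hj z c => ?_⟩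
    obtain ⟨a, b⟩ := Classical.epsilon_spec (p := fun j => j ∈ L ∧ ∀ l ∈ L, j < l → z l = 0) ⟨j, hj, c⟩
    rcases lt_trichotomy (Classical.epsilon fun j => j ∈ L ∧ ∀ l ∈ L, j < l → z l = 0) j with d | d | d
    · exact ((h j hj).2 _ d z fun l e f => b l (hL f hj) e).symm
    · simp only [d]
    · exact (h _ a).2 _ d z fun l e f => c l (hL f a) e
  have top : ∀ i ∈ L, ∀ x y : I →₀ ℝ, ∃ j ∈ L, i ≤ j ∧ ∀ s t : ℝ, m (s • x + t • y) = N j (s • x + t • y) := by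
    intro i hi x y
    obtain ⟨j, a, b⟩ := (insert i ((x.support ∪ y.support).filter (· ∈ L))).exists_max_image id (by simp)
    have c : j ∈ L := by
      rcases Finset.mem_insert.mp a with rfl | a
      exacts [hi, (Finset.mem_filter.mp a).2]
    refine ⟨j, c, b i (by simp), fun s t => hm j c _ fun l d e => ?_⟩
    have : l ∉ x.support ∪ y.support := fun f => e.not_ge (b l (by simp only [Finset.mem_insert, Finset.mem_filter]; tauto))
    simp only [Finset.mem_union, notMem_support_iff, not_or] at this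
    simp [this]
  refine ⟨Seminorm.of m (fun x y => ?_) fun a x => ?_, fun x y => ?_, fun x y => ?_, fun z c => ?_, fun l c z => ?_, hm⟩
  · obtain ⟨j, -, -, b⟩ := top i hi x y
    have := map_add_le_add (N j) x y
    simpa [← show m x = N j x by simpa using b 1 0, ← show m y = N j y by simpa using b 0 1,
      ← show m (x + y) = N j (x + y) by simpa using b 1 1] using this
  · obtain ⟨j, -, -, b⟩ := top i hi x x
    rw [show m x = N j x by simpa using b 1 0, show m (a • x) = N j (a • x) by simpa using b a 0, map_smul_eq_mul]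
  · obtain ⟨j, a, -, b⟩ := top i hi x y
    show m x = 1 → m y = 1 → m (x + y) = 2 → m (x - y) = 0
    rw [show m x = N j x by simpa using b 1 0, show m y = N j y by simpa using b 0 1,
      show m (x + y) = N j (x + y) by simpa using b 1 1,
      show m (x - y) = N j (x - y) by simpa [sub_eq_add_neg] using b 1 (-1)]
    exact (h j a).1.1 x y
  · obtain ⟨j, a, -, b⟩ := top i hi x y
    show m x = 1 → ∀ ε > 0, ∀ᶠ τ : ℝ in 𝓝[>] 0, m (x + τ • y) + m (x - τ • y) - 2 ≤ ε * τ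
    simp only [show m x = N j x by simpa using b 1 0, show ∀ τ : ℝ, m (x + τ • y) = N j (x + τ • y) by
      simpa using b 1, show ∀ τ : ℝ, m (x - τ • y) = N j (x - τ • y) from fun τ => by
        simpa [sub_eq_add_neg] using b 1 (-τ)]
    exact (h j a).1.2.1 x y
  · exact (hm i hi z fun l d _ => c l d).trans ((h i hi).1.2.2.1 z fun l d => c l (hL d hi))
  · obtain ⟨j, a, d, b⟩ := top l c z z
    exact ((h j a).1.2.2.2 l d z).trans_eq (show N j z = m z by simpa using (b 1 0).symm)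

theorem dat {X : Type} [AddCommGroup X] [Module ℝ X] (M : Seminorm ℝ X) (π κ : X →ₗ[ℝ] ℝ) (hκ : ∀ z, |κ z| ≤ M z)
    (v u : X) (hu : M u = 0) (h1 : π u = 1) (h2 : π v = 0) : ∃ (G : X →ₗ[ℝ] ℝ) (a : ℝ), 0 ≤ a ∧
      (∀ z, |G z| ≤ a * (M z + |π z|)) ∧ (κ v = -1 → ∀ z, κ z = 0 → M z ^ 2 + π z ^ 2 ≤ 1 → |G z| ≤ a) ∧
      (1 < M v → a + 1 ≤ G ((1 / 2 : ℝ) • (v + u))) := by
  rcases le_or_gt (M v) 1 with c | c
  · exact ⟨0, 0, le_rfl, by simp, by simp, fun d => (d.not_ge c).elim⟩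
  obtain ⟨f, f1, f2⟩ : ∃ f : X →ₗ[ℝ] ℝ, (∀ z, |f z| ≤ M z) ∧ f v = M v := by
    let := M.toAddGroupSeminorm.toSeminormedAddCommGroup
    let : NormedSpace ℝ X := ⟨fun a x => (map_smul_eq_mul M a x).le⟩
    obtain ⟨g, a, b⟩ := exists_dual_vector'' ℝ v
    exact ⟨g, fun z => (g.le_opNorm z).trans (mul_le_of_le_one_left (norm_nonneg _) a), b⟩
  have f3 : f u = 0 := abs_nonpos_iff.mp (hu ▸ f1 u)
  have f4 : κ u = 0 := abs_nonpos_iff.mp (hu ▸ hκ u)
  obtain ⟨θ, A, t0, t1, A1, b, d⟩ : ∃ θ A : ℝ, 0 ≤ θ ∧ θ ≤ 1 ∧ 1 ≤ A ∧ (κ v = -1 → 1 + θ ^ 2 / 2 ≤ A) ∧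
      A < (θ * M v - (1 - θ) * κ v + 1) / 2 := by
    by_cases e : κ v = -1
    · obtain ⟨θ, a, b⟩ := exists_between (lt_min one_pos (sub_pos.mpr c))
      rw [lt_min_iff] at b
      exact ⟨θ, _, a.le, b.1.le, by nlinarith, fun _ => le_rfl, by rw [e]; nlinarith⟩
    · exact ⟨1, 1, zero_le_one, le_rfl, le_rfl, fun d => (e d).elim, by linarith⟩
  obtain ⟨D, hD⟩ : ∃ D, D = (θ * M v - (1 - θ) * κ v + 1) / 2 - A := ⟨_, rfl⟩
  have D0 : 0 < D := by linarith
  have e : ∀ z, |(D⁻¹ • (θ • f - (1 - θ) • κ + π)) z| = D⁻¹ * |θ * f z - (1 - θ) * κ z + π z| := fun z => by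
    rw [LinearMap.smul_apply, smul_eq_mul, abs_mul, abs_of_pos (inv_pos.mpr D0)]; rfl
  refine ⟨D⁻¹ • (θ • f - (1 - θ) • κ + π), D⁻¹ * A, by positivity, fun z => ?_, fun g z g1 g2 => ?_, fun _ => ?_⟩
  · rw [e, mul_assoc]
    gcongr
    have := abs_le.mp (f1 z)
    have := abs_le.mp (hκ z)
    refine le_trans (abs_le.mpr ⟨?_, ?_⟩) (le_mul_of_one_le_left (by positivity) A1) <;>
      nlinarith [le_abs_self (π z), neg_abs_le (π z)]
  · rw [e, g1]
    gcongr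
    have := sq_le_sq' (abs_le.mp (f1 z)).1 (abs_le.mp (f1 z)).2
    have := b g
    refine abs_le.mpr ⟨?_, ?_⟩ <;> nlinarith [sq_nonneg (f z - θ), sq_nonneg (f z + θ), sq_nonneg (π z - 1),
      sq_nonneg (π z + 1)]
  · simp only [LinearMap.smul_apply, LinearMap.add_apply, LinearMap.sub_apply, map_smul, map_add, f2, f3, f4, h1, h2,
      smul_eq_mul]
    field_simp
    linarith

theorem core : ∃ (I : Type) (_ : Infinite I) (M : Seminorm ℝ (I →₀ ℝ)) (C : Set (I →₀ ℝ)), Ro M ∧ Sm M ∧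
    (∀ z l, |z l| ≤ M z) ∧ (∀ z, ∃ c ∈ C, M (z - c) ≤ 1) ∧ C.Pairwise fun a b => 2 ≤ M (a - b) := by
  classical
  obtain ⟨I, _, _, _, e, e1, e2⟩ := idx
  obtain ⟨N, hN⟩ := wrec (α := Seminorm ℝ (I →₀ ℝ)) (fun i N => P i N ∧ N (single i 1) ≤ 1 ∧
      ∀ k < i, 1 < N (e i - (e k + single k 1)) → 2 ≤ N (e i - (e k + single k 1) + single i 1)) R fun i N h => by
    obtain ⟨M, m1, m2, m3, m4, m5⟩ := glue (isLowerSet_Iio i) N fun j c => ⟨(h j c).1.1, (h j c).2⟩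
    have u : M (single i 1) = 0 := m3 _ fun l c => single_eq_of_ne (ne_of_lt c)
    have v : ∀ k < i, (e i - (e k + single k 1) : I →₀ ℝ) i = 0 := fun k c => by simp [e1 k i c.le, e1 i i le_rfl, c.ne']
    choose G a a0 g1 g2 g3 using fun k : Iio i => dat M (lapply i) (lapply k.1) (m4 _ k.2) (e i - (e k + single k.1 1))
      _ u single_eq_same (v _ k.2)
    obtain ⟨Q, q1, q2, q3, q4, q5, q6⟩ := step m1 m2 (lapply i) G a a0 g1 fun x y =>
      ⟨(x.support ∪ y.support ∪ (e i).support).subtype _, fun j c s t d => by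
        simp only [Finset.mem_subtype, Finset.mem_union, notMem_support_iff, not_or] at c
        exact g2 j (by simp [c, e1]) _ (by simp [c]) d⟩
    have w : ∀ z : I →₀ ℝ, z i = 0 → Q z = M z := fun z c => le_antisymm (by simpa [c] using q5 z) (q3 z)
    refine ⟨Q, ⟨⟨q1, q2, fun z c => (w z (c i le_rfl)).trans (m3 z fun l d => c l (le_of_lt d)), fun l c z => ?_⟩,
      by simpa [u] using q5 (single i 1), fun k c d => ?_⟩,
      fun k c z d => (w z (d i c le_rfl)).trans (m5 k c z fun l f g => d l g (le_of_lt f))⟩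
    · rcases c.eq_or_lt with rfl | c
      exacts [q4 z, (m4 l c z).trans (q3 z)]
    · have := q6 _ _ (g3 ⟨k, c⟩ (w _ (v k c) ▸ d))
      rw [map_smul_eq_mul] at this
      norm_num at this
      linarith
  obtain ⟨M, m1, m2, -, m4, m5⟩ := glue isLowerSet_univ N fun j _ => ⟨(hN j).1.1, (hN j).2⟩
  obtain ⟨F, hF⟩ : ∃ F : I → Prop, ∀ i, F i = ∀ k < i, F k → 1 < M (e i - (e k + single k 1)) :=
    ⟨wellFounded_lt.fix fun i g => ∀ k (h : k < i), g k h → 1 < M (e i - (e k + single k 1)),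
      fun i => WellFounded.fix_eq _ _ _⟩
  have s : ∀ i k, F i → F k → k < i → 2 ≤ M (e i + single i 1 - (e k + single k 1)) := fun i k a b c => by
    have v : ∀ l, i < l → (e i - (e k + single k 1) : I →₀ ℝ) l = 0 := fun l d => by
      simp [e1 k l (c.trans d).le, e1 i l d.le, (c.trans d).ne']
    rw [add_sub_right_comm, m5 i trivial _ fun l _ d => by rw [Finsupp.add_apply, v l d]; simp [d.ne']]
    exact (hN i).1.2.2 k c (m5 i trivial _ (fun l _ => v l) ▸ (hF i ▸ a) k c b)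
  refine ⟨I, inferInstance, M, (fun k => e k + single k 1) '' {k | F k}, m1, m2, fun z l => m4 l trivial z,
    fun z => ?_, ?_⟩
  · obtain ⟨i, rfl⟩ := e2 z
    by_cases c : F i
    · refine ⟨_, ⟨i, c, rfl⟩, ?_⟩
      rw [sub_add_cancel_left, map_neg_eq_map, m5 i trivial _ fun l _ d => single_eq_of_ne d.ne']
      exact (hN i).1.2.1
    · rw [hF] at c
      push Not at c
      obtain ⟨k, -, a, b⟩ := c
      exact ⟨_, ⟨k, a, rfl⟩, b⟩
  · rintro _ ⟨i, a, rfl⟩ _ ⟨k, b, rfl⟩ c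
    rcases lt_trichotomy i k with d | rfl | d
    exacts [map_sub_rev M _ _ ▸ s k i b a d, (c rfl).elim, s i k a b d]

end Pool.Agent.H.MP_2a41cd_an
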